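import Mathlib

/-!
# Post's tag system with productions 00 and 1101 (MP_41f897_lc): definitions

The letter `0` is `false`, the letter `1` is `true`.
-/

set_option autoImplicit false

namespace Pool.Agent.Helper34.PT

/-- One step of Post's process: remove the first three letters and append `1101` if the first letter
is `1`, and `00` if the first letter is `0`; undefined on words with fewer than three letters. -/
def step : List Bool → Option (List Bool)
  | x :: _ :: _ :: r => some (r ++ (if x then [true, true, false, true] else [false, false]))
  | _ => none

/-- `t` steps of Post's process (`none` if it stops earlier). -/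
def run : ℕ → List Bool → Option (List Bool)
  | 0, w => some w
  | t + 1, w => (step w).bind (run t)

/-- Boolean formulas with the variables `x 0`, `x 1`, ... -/
inductive Formula : Type
  | var (i : ℕ) : Formula
  | tt : Formula
  | neg (φ : Formula) : Formula
  | conj (φ ψ : Formula) : Formula
  | disj (φ ψ : Formula) : Formula

/-- The truth value of a formula. -/
def Formula.eval (x : ℕ → Bool) : Formula → Bool
  | .var i => x i
  | .tt => true
  | .neg φ => !(φ.eval x)
  | .conj φ ψ => φ.eval x && ψ.eval x
  | .disj φ ψ => φ.eval x || ψ.eval x

/-- The depth of a formula (every gate counts). -/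
def Formula.depth : Formula → ℕ
  | .var _ => 0
  | .tt => 0
  | .neg φ => φ.depth + 1
  | .conj φ ψ => max φ.depth ψ.depth + 1
  | .disj φ ψ => max φ.depth ψ.depth + 1

/-- The word obtained from the pattern `p` and the bits `x`: every entry `(i, b, c)` of the pattern
becomes one letter, `b` if `x i` is true and `c` if `x i` is false. -/
def fill (p : List (ℕ × Bool × Bool)) (x : ℕ → Bool) : List Bool :=
  p.map (fun e => if x e.1 then e.2.1 else e.2.2)

end Pool.Agent.Helper34.PT
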