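import Pool.Agent.Helper34.PT.Main

/-!
# Post's tag system (MP_41f897_lc): the main theorem
-/

set_option autoImplicit false
set_option linter.unusedSimpArgs false

namespace Pool.Agent.Helper34.PT

open Equiv.Perm

/-- the whole program -/
def Fp (k d : ℕ) (φ : Formula) : List Item := inv (Pr k d φ) ++ inv (Pr k d .tt)

theorem Fp_length (k d : ℕ) (φ : Formula) : (Fp k d φ).length ≤ 144 * 27 ^ d := by
  have h1 := Pr_length k d φ
  have h2 := Pr_tt_length k d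
  simp only [Fp, List.length_append, inv_length]
  omega

theorem Fp_spec (d : ℕ) (φ : Formula) (hφ : φ.depth ≤ d) (x : ℕ → Bool) :
    act (List.replicate (3 * d + 1) 1 ++ [1]) (pos (3 * d + 2) x (Fp (3 * d + 2) d φ)) =
      List.replicate (3 * d + 1) 1 ++ [if φ.eval x then 0 else 2] := by
  have hl : (List.replicate (3 * d + 1) (1 : Fin 3) ++ [1]).length ≤ 3 * d + 2 := by simp
  have h := pos_spec (3 * d + 2) x (Fp (3 * d + 2) d φ) _ hl
  rw [P_apply] at h
  rw [h, Fp, ev_append, ev_inv, ev_inv, Pr_spec _ x d φ hφ, Pr_spec _ x d .tt (by simp [Formula.depth]),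
    mul_apply]
  have hM := XX_Mv (3 * d + 2) d
  have step1 : ∀ s : Fin 3, (XX (3 * d + 2) d)⁻¹ (List.replicate (3 * d + 1) 1 ++ [s]) =
      List.replicate (3 * d + 1) 1 ++ [s + 1] := by
    intro s
    obtain ⟨w', hw'⟩ := (hM s [] (by simp)).2
    have hlen := (XX_lp (3 * d + 2) d).inv (List.replicate (3 * d + 1) 1 ++ [s])
    rw [hw'] at hlen
    have : w' = [] := by
      apply List.length_eq_zero_iff.1
      simpa using hlen
    rw [hw', this]
  have e2 : (1 : Fin 3) + 1 = 2 := by decide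
  have e0 : (2 : Fin 3) + 1 = 0 := by decide
  simp only [Formula.eval, if_true]
  split_ifs with hx
  · rw [step1, e2, step1, e0]
  · rw [inv_one, one_apply, step1, e2]

theorem lin_le (d : ℕ) : 3 * d + 2 ≤ 2 * 4 ^ d := by
  induction d with
  | zero => norm_num
  | succ d ih =>
    have : 1 ≤ 4 ^ d := Nat.one_le_pow _ _ (by norm_num)
    rw [pow_succ]
    omega

theorem main_size (d : ℕ) : ∃ E M : ℕ, M = E + 1 ∧
    (∀ L : ℕ, L ≤ 2 * 3 ^ (3 * d + 2) * (144 * 27 ^ d) → 2 ^ (3 * d + 1 + 2) * L ≤ E) ∧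
    (3 * d + 1 + 1) * (2 * M) + E ≤ 200000 ^ (d + 1) ∧
    8 * M + 4 * (2 * 3 ^ (3 * d + 2) * (144 * 27 ^ d)) ≤ 200000 ^ (d + 1) := by
  have e3 : 3 ^ (3 * d + 2) = 9 * 27 ^ d := by rw [pow_add, pow_mul]; norm_num; ring
  have e2 : 2 ^ (3 * d + 1 + 2) = 8 * 8 ^ d := by
    have : 3 * d + 1 + 2 = 3 * d + 3 := by ring
    rw [this, pow_add, pow_mul]; norm_num; ring
  have eA : 27 ^ d * 27 ^ d = 729 ^ d := by rw [← mul_pow]; norm_num
  have eB : 8 ^ d * 729 ^ d = 5832 ^ d := by rw [← mul_pow]; norm_num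
  have hd := lin_le d
  refine ⟨20736 * 5832 ^ d, 20736 * 5832 ^ d + 1, rfl, ?_, ?_, ?_⟩
  · intro L hL
    rw [e2]
    rw [e3] at hL
    calc 8 * 8 ^ d * L ≤ 8 * 8 ^ d * (2 * (9 * 27 ^ d) * (144 * 27 ^ d)) :=
          Nat.mul_le_mul_left _ hL
      _ = 20736 * (8 ^ d * (27 ^ d * 27 ^ d)) := by ring
      _ = 20736 * 5832 ^ d := by rw [eA, eB]
  · have h1 : 1 ≤ 5832 ^ d := Nat.one_le_pow _ _ (by norm_num)
    have h2 : 4 ^ d * 5832 ^ d = 23328 ^ d := by rw [← mul_pow]; norm_num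
    have h3 : 5832 ^ d ≤ 23328 ^ d := Nat.pow_le_pow_left (by norm_num) d
    have h4 : 23328 ^ d ≤ 200000 ^ d := Nat.pow_le_pow_left (by norm_num) d
    calc (3 * d + 1 + 1) * (2 * (20736 * 5832 ^ d + 1)) + 20736 * 5832 ^ d
        ≤ (2 * 4 ^ d) * (2 * (20737 * 5832 ^ d)) + 20736 * 5832 ^ d := by
          have : 3 * d + 1 + 1 ≤ 2 * 4 ^ d := by omega
          have h5 : 2 * (20736 * 5832 ^ d + 1) ≤ 2 * (20737 * 5832 ^ d) := by omega
          exact Nat.add_le_add_right (Nat.mul_le_mul this h5) _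
      _ = 82948 * (4 ^ d * 5832 ^ d) + 20736 * 5832 ^ d := by ring
      _ ≤ 82948 * 23328 ^ d + 20736 * 23328 ^ d := by rw [h2]; omega
      _ ≤ 200000 * 200000 ^ d := by omega
      _ = 200000 ^ (d + 1) := by rw [pow_succ]; ring
  · have h1 : 1 ≤ 5832 ^ d := Nat.one_le_pow _ _ (by norm_num)
    have h3 : 729 ^ d ≤ 5832 ^ d := Nat.pow_le_pow_left (by norm_num) d
    have h4 : 5832 ^ d ≤ 200000 ^ d := Nat.pow_le_pow_left (by norm_num) d
    rw [e3]
    calc 8 * (20736 * 5832 ^ d + 1) + 4 * (2 * (9 * 27 ^ d) * (144 * 27 ^ d))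
        = 8 * (20736 * 5832 ^ d + 1) + 10368 * (27 ^ d * 27 ^ d) := by ring
      _ = 8 * (20736 * 5832 ^ d + 1) + 10368 * 729 ^ d := by rw [eA]
      _ ≤ 200000 * 200000 ^ d := by omega
      _ = 200000 ^ (d + 1) := by rw [pow_succ]; ring

/-- Formula evaluation by Post's process. -/
theorem main (φ : Formula) (m : ℕ) : ∃ (p : List (ℕ × Bool × Bool)) (t : ℕ),
    p.length ≤ 200000 ^ (φ.depth + 1) * (m + 1) ∧ t ≤ 200000 ^ (φ.depth + 1) * (m + 1) ∧
    ∀ x : ℕ → Bool, ∀ j ≤ m, ∃ w : List Bool, run (t + j) (fill p x) = some (φ.eval x :: w) := by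
  obtain ⟨E, M₀, hM₀, hE, ht, hp⟩ := main_size φ.depth
  set d := φ.depth with hd
  obtain ⟨M, hM⟩ : ∃ M, M = E + m + 1 := ⟨_, rfl⟩
  have hM1 : 1 ≤ M := by omega
  have hMm : M ≤ M₀ * (m + 1) := by
    rw [hM, hM₀]
    have : (E + 1) * (m + 1) = E * m + E + m + 1 := by ring
    rw [this]
    omega
  have hlen : ∀ x, (pos (3 * d + 2) x (Fp (3 * d + 2) d φ)).length ≤
      2 * 3 ^ (3 * d + 2) * (144 * 27 ^ d) := fun x =>
    (pos_length _ x _).trans (Nat.mul_le_mul_left _ (Fp_length _ d φ))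
  have hfill : ∀ x, fill ((cst (bin (R M)) ++ pat (3 * d + 2) (Fp (3 * d + 2) d φ)).drop 1) x =
      (bin (R M) ++ bin (pos (3 * d + 2) x (Fp (3 * d + 2) d φ))).drop 1 := by
    intro x
    have h1 : ∀ q : List (ℕ × Bool × Bool), fill (q.drop 1) x = (fill q x).drop 1 := by
      intro q
      simp [fill]
    rw [h1, fill_append, fill_cst, fill_pat]
  refine ⟨(cst (bin (R M)) ++ pat (3 * d + 2) (Fp (3 * d + 2) d φ)).drop 1,
    (3 * d + 1 + 1) * (2 * M) + E, ?_, ?_, ?_⟩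
  · have h1 : ((cst (bin (R M)) ++ pat (3 * d + 2) (Fp (3 * d + 2) d φ)).drop 1).length =
        ((bin (R M) ++ bin (pos (3 * d + 2) (fun _ => false) (Fp (3 * d + 2) d φ))).drop 1).length := by
      rw [← hfill]
      simp only [fill, List.length_map]
    rw [h1]
    have h2 := bin_length_le (R M)
    rw [R_length] at h2
    have h3 := bin_length_le (pos (3 * d + 2) (fun _ => false) (Fp (3 * d + 2) d φ))
    have h4 := hlen (fun _ => false)
    rw [List.length_drop, List.length_append]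
    refine le_trans ?_ (Nat.mul_le_mul_right (m + 1) hp)
    have h5 : (8 * M₀ + 4 * (2 * 3 ^ (3 * d + 2) * (144 * 27 ^ d))) * (m + 1) =
        8 * (M₀ * (m + 1)) + 4 * (2 * 3 ^ (3 * d + 2) * (144 * 27 ^ d)) * (m + 1) := by ring
    have h6 : 4 * (2 * 3 ^ (3 * d + 2) * (144 * 27 ^ d)) ≤
        4 * (2 * 3 ^ (3 * d + 2) * (144 * 27 ^ d)) * (m + 1) :=
      Nat.le_mul_of_pos_right _ (by omega)
    rw [h5]
    omega
  · refine le_trans ?_ (Nat.mul_le_mul_right (m + 1) ht)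
    have h5 : ((3 * d + 1 + 1) * (2 * M₀) + E) * (m + 1) =
        (3 * d + 1 + 1) * (2 * (M₀ * (m + 1))) + E * (m + 1) := by ring
    rw [h5]
    have h6 : (3 * d + 1 + 1) * (2 * M) ≤ (3 * d + 1 + 1) * (2 * (M₀ * (m + 1))) :=
      Nat.mul_le_mul_left _ (by omega)
    have h7 : E ≤ E * (m + 1) := Nat.le_mul_of_pos_right _ (by omega)
    omega
  · intro x i hi
    have hact := Fp_spec d φ (le_of_eq hd.symm) x
    have hs : (if φ.eval x then (0 : Fin 3) else 2) ≠ 1 := by split_ifs <;> decide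
    obtain ⟨τ, W', h1, h2, h3⟩ := iter M hM1 _ hs (3 * d + 1) _ hact
    have hE' := hE _ (hlen x)
    obtain ⟨j, hj⟩ : ∃ j, (3 * d + 1 + 1) * (2 * M) + E + i = τ + j :=
      ⟨(3 * d + 1 + 1) * (2 * M) + E + i - τ, by omega⟩
    have hjM : j < 2 * M := by omega
    rw [hfill x, hj, run_add, h1, Option.bind_some]
    rcases Bool.eq_false_or_eq_true (φ.eval x) with hx | hx
    · rw [hx]
      obtain ⟨w, hw⟩ := read0 M j (bin W') hjM
      exact ⟨w, by simpa using hw⟩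
    · rw [hx]
      obtain ⟨w, hw⟩ := read2 M j (bin W') hjM
      exact ⟨w, by simpa using hw⟩

end Pool.Agent.Helper34.PT
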