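import Pool.Agent.Helper34.PT.Prog

/-!
# Post's tag system (MP_41f897_lc): positive words, patterns, the delay region, and the main theorem
-/

set_option autoImplicit false
set_option linter.unusedSimpArgs false

namespace Pool.Agent.Helper34.PT

open Equiv.Perm

/-! ## Positive words -/

theorem rep_length (n : ℕ) (W : List Bool) : (rep n W).length = n * W.length := by
  induction n with
  | zero => simp [rep]
  | succ n ih => simp only [rep, List.length_append, ih]; ring

theorem pow_pos3 (k : ℕ) : 0 < 3 ^ k := by positivity

/-- inverse by a high power -/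
theorem inv_pow (k : ℕ) (U : List Bool) (w : List (Fin 3)) (hw : w.length ≤ k) :
    P (rep (3 ^ k - 1) U) w = (P U)⁻¹ w := by
  rw [P_rep, eq_comm, inv_eq_iff_eq, ← mul_apply, ← pow_succ']
  have h : 3 ^ k - 1 + 1 = 3 ^ k := by
    have := pow_pos3 k
    omega
  rw [h, P_pow_fix k w hw]

/-- positive word of a group letter -/
def posl (k : ℕ) : Ltr → List Bool
  | .A n => rep (n % 3 ^ k).toNat [false]
  | .B => [true]
  | .Bi => rep (3 ^ k - 1) [true]

theorem posl_spec (k : ℕ) (c : Ltr) (w : List (Fin 3)) (hw : w.length ≤ k) :
    P (posl k c) w = c.ev w := by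
  cases c with
  | A n =>
    simp only [posl, Ltr.ev]
    have h3 : (0 : ℤ) < 3 ^ k := by positivity
    have hm : 0 ≤ n % 3 ^ k := Int.emod_nonneg n h3.ne'
    rw [P_rep]
    have e1 : (P [false] ^ (n % 3 ^ k).toNat) = a ^ (n % 3 ^ k) := by
      rw [← zpow_natCast, Int.toNat_of_nonneg hm]
      rfl
    have e2 : a ^ n = a ^ (n % 3 ^ k) * a ^ (3 ^ k * (n / 3 ^ k)) := by
      rw [← zpow_add, Int.emod_add_mul_ediv]
    rw [e1, e2, mul_apply, a_fix k _ w hw]
  | B => rfl
  | Bi => exact inv_pow k [true] w hw

/-- the word used when the bit is true -/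
def wT (k : ℕ) : Bool → List Bool
  | true => rep (3 ^ k - 1) [true] ++ ([false] ++ ([true] ++ rep (3 ^ k - 1) [false]))
  | false => [false] ++ (rep (3 ^ k - 1) [true] ++ (rep (3 ^ k - 1) [false] ++ [true]))

/-- the word used when the bit is false -/
def wF (k : ℕ) : List Bool := rep (3 ^ k) [false] ++ rep (3 ^ k) [true]

/-- positive word of an item -/
def pos1 (k : ℕ) (x : ℕ → Bool) : Item → List Bool
  | .l c => posl k c
  | .X i e => if x i then wT k e else wF k

/-- positive word of a program -/
def pos (k : ℕ) (x : ℕ → Bool) : List Item → List Bool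
  | [] => []
  | i :: L => pos1 k x i ++ pos k x L

theorem wF_spec (k : ℕ) (w : List (Fin 3)) (hw : w.length ≤ k) : P (wF k) w = w := by
  rw [wF, P_append, mul_apply, P_rep, P_rep, P_pow_fix k w hw, P_pow_fix k w hw]

theorem wT_spec (k : ℕ) (e : Bool) (w : List (Fin 3)) (hw : w.length ≤ k) :
    P (wT k e) w = (if e then X0 else X0⁻¹) w := by
  cases e with
  | true =>
    simp only [wT, P_append, mul_apply, if_true]
    rw [inv_pow k [true] w hw, inv_pow k [false] _ (by
      rw [P_length, P_length, Lp.inv (g := P [true]) (P_length [true])]; exact hw)]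
    simp only [X0, xL, evl, Ltr.ev, zpow_one, zpow_neg_one, mul_apply, one_apply]
    rfl
  | false =>
    simp only [wT, P_append, mul_apply, Bool.false_eq_true, if_false]
    rw [inv_pow k [true] _ (by rw [P_length]; exact hw), inv_pow k [false] _ (by
      rw [Lp.inv (g := P [true]) (P_length [true]), P_length]; exact hw)]
    simp only [X0, xL, evl, Ltr.ev, zpow_one, zpow_neg_one, one_mul, mul_inv_rev, inv_inv,
      mul_apply]
    rfl

theorem pos1_spec (k : ℕ) (x : ℕ → Bool) (i : Item) (w : List (Fin 3)) (hw : w.length ≤ k) :
    P (pos1 k x i) w = i.ev x w := by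
  cases i with
  | l c => exact posl_spec k c w hw
  | X i e =>
    simp only [pos1]
    rcases Bool.eq_false_or_eq_true (x i) with h | h
    · rw [if_pos h, wT_spec k e w hw]
      cases e <;> simp [Item.ev, h]
    · rw [if_neg (by simp [h]), wF_spec k w hw]
      cases e <;> simp [Item.ev, h]

theorem Item.lp (x : ℕ → Bool) (i : Item) : Lp (i.ev x) := by
  cases i with
  | l c => exact c.lp
  | X i e =>
    cases e <;> simp only [Item.ev] <;> split_ifs
    · exact X0_lp.inv
    · exact Lp.one
    · exact X0_lp
    · exact Lp.one

theorem pos_spec (k : ℕ) (x : ℕ → Bool) (L : List Item) : ∀ w : List (Fin 3), w.length ≤ k →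
    P (pos k x L) w = ev x L w := by
  induction L with
  | nil => intro w _; rw [pos, P_nil]; rfl
  | cons i L ih =>
    intro w hw
    simp only [pos, ev, P_append, mul_apply]
    rw [pos1_spec k x i w hw, ih _ (by rw [i.lp x]; exact hw)]

theorem pos1_length (k : ℕ) (x : ℕ → Bool) (i : Item) : (pos1 k x i).length ≤ 2 * 3 ^ k := by
  have h3 := pow_pos3 k
  cases i with
  | l c =>
    cases c with
    | A n =>
      simp only [pos1, posl, rep_length, List.length_singleton, mul_one]
      have h1 : n % 3 ^ k < 3 ^ k := Int.emod_lt_of_pos n (by positivity)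
      have h2 : ((3 : ℤ) ^ k) = ((3 ^ k : ℕ) : ℤ) := by push_cast; rfl
      omega
    | B => simp only [pos1, posl, List.length_singleton]; omega
    | Bi => simp only [pos1, posl, rep_length, List.length_singleton, mul_one]; omega
  | X i e =>
    simp only [pos1]
    split_ifs
    · cases e <;> simp only [wT, List.length_append, rep_length, List.length_singleton] <;> omega
    · simp only [wF, List.length_append, rep_length, List.length_singleton]; omega

theorem pos_length (k : ℕ) (x : ℕ → Bool) (L : List Item) :
    (pos k x L).length ≤ 2 * 3 ^ k * L.length := by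
  induction L with
  | nil => simp [pos]
  | cons i L ih =>
    simp only [pos, List.length_append, List.length_cons]
    have h := pos1_length k x i
    rw [mul_add, mul_one]
    omega

/-! ## Patterns -/

/-- constant pattern -/
def cst (W : List Bool) : List (ℕ × Bool × Bool) := W.map (fun c => (0, c, c))

/-- pattern of an item -/
def pat1 (k : ℕ) : Item → List (ℕ × Bool × Bool)
  | .l c => cst (bin (posl k c))
  | .X i e => List.zipWith (fun t f => (i, t, f)) (bin (wT k e)) (bin (wF k))

/-- pattern of a program -/
def pat (k : ℕ) : List Item → List (ℕ × Bool × Bool)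
  | [] => []
  | i :: L => pat1 k i ++ pat k L

theorem fill_append (p q : List (ℕ × Bool × Bool)) (x : ℕ → Bool) :
    fill (p ++ q) x = fill p x ++ fill q x := by simp [fill]

theorem fill_cst (W : List Bool) (x : ℕ → Bool) : fill (cst W) x = W := by
  induction W with
  | nil => rfl
  | cons c W ih =>
    simp only [fill, cst, List.map_cons, List.map_map] at ih ⊢
    rw [ih]
    simp

theorem fill_zip (i : ℕ) (x : ℕ → Bool) : ∀ U W : List Bool, U.length = W.length →
    fill (List.zipWith (fun t f => (i, t, f)) U W) x = if x i then U else W := by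
  intro U
  induction U with
  | nil =>
    intro W h
    have : W = [] := List.length_eq_zero_iff.1 h.symm
    subst this
    simp [fill]
  | cons c U ih =>
    intro W h
    cases W with
    | nil => simp at h
    | cons c' W =>
      have h' := ih W (by simpa using h)
      simp only [List.zipWith_cons_cons, fill, List.map_cons] at h' ⊢
      rw [h']
      split_ifs <;> rfl

theorem bin_rep_false (n : ℕ) : (bin (rep n [false])).length = 2 * n := by
  induction n with
  | zero => rfl
  | succ n ih => simp only [rep, bin_append, List.length_append, ih, bin, List.length]; omega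

theorem bin_rep_true (n : ℕ) : (bin (rep n [true])).length = 4 * n := by
  induction n with
  | zero => rfl
  | succ n ih => simp only [rep, bin_append, List.length_append, ih, bin, List.length]; omega

theorem bin_wT (k : ℕ) (e : Bool) : (bin (wT k e)).length = (bin (wF k)).length := by
  have h3 := pow_pos3 k
  cases e <;> simp only [wT, wF, bin_append, List.length_append, bin_rep_false, bin_rep_true, bin,
    List.length] <;> omega

theorem fill_pat (k : ℕ) (x : ℕ → Bool) (L : List Item) : fill (pat k L) x = bin (pos k x L) := by
  induction L with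
  | nil => rfl
  | cons i L ih =>
    simp only [pat, pos, fill_append, bin_append, ih]
    congr 1
    cases i with
    | l c => exact fill_cst _ x
    | X i e =>
      simp only [pat1, pos1]
      rw [fill_zip i x _ _ (bin_wT k e)]
      split_ifs <;> rfl

theorem bin_length_le (W : List Bool) : (bin W).length ≤ 4 * W.length := by
  induction W with
  | nil => simp [bin]
  | cons c W ih => cases c <;> simp only [bin, List.length_cons] <;> omega

theorem bin_length_ge (W : List Bool) : 2 * W.length ≤ (bin W).length := by
  induction W with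
  | nil => simp [bin]
  | cons c W ih => cases c <;> simp only [bin, List.length_cons] <;> omega

/-! ## The delay region -/

/-- the delay region -/
def R (M : ℕ) : List Bool := rep M [true, false]

theorem R_ext (M : ℕ) : ext (R M) 1 = 1 := ext_rep rfl M

theorem R_sec (M : ℕ) : sec (R M) 1 = R M := by
  have h := sec_rep (U := [true, false]) (s := 1) rfl M
  exact h

theorem R_length (M : ℕ) : (R M).length = 2 * M := by
  rw [R, rep_length]
  simp only [List.length]
  omega

theorem pass (M : ℕ) (hM : 1 ≤ M) (W : List Bool) (hW : W ≠ []) :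
    run (2 * M + (sec W 1).length) ((bin (R M) ++ bin W).drop 1) =
      some ((bin (R M) ++ bin (sec W 1)).drop (ext W 1)) := by
  have h1 : 1 ≤ W.length := List.length_pos_iff.2 hW
  have h2 := bin_length_ge W
  have h3 := bin_length_ge (R M)
  rw [R_length] at h3
  have e := run_word (R M) 1 (bin W) (by omega)
  rw [R_sec, R_ext, R_length] at e
  have e1 : ((1 : Fin 3) : ℕ) = 1 := rfl
  rw [e1] at e
  rw [run_add, e, Option.bind_some]
  have e2 := run_word W 1 (bin (R M)) (by omega)
  rw [e1] at e2
  exact e2

theorem sec_length (W : List Bool) : ∀ s : Fin 3, (sec W s).length ≤ 2 * W.length := by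
  induction W with
  | nil => intro s; simp [sec]
  | cons c W ih =>
    intro s
    simp only [sec, List.length_append, List.length_cons]
    have h := ih (nxt c s)
    have h2 : (out c s).length ≤ 2 := by
      cases c <;> fin_cases s <;> simp [out]
    omega

theorem iter (M : ℕ) (hM : 1 ≤ M) (s : Fin 3) (hs : s ≠ 1) (n : ℕ) : ∀ W : List Bool,
    act (List.replicate n 1 ++ [1]) W = List.replicate n 1 ++ [s] →
    ∃ (τ : ℕ) (W' : List Bool), run τ ((bin (R M) ++ bin W).drop 1) =
      some ((bin (R M) ++ bin W').drop s) ∧ (n + 1) * (2 * M) ≤ τ ∧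
      τ + 2 * W.length ≤ (n + 1) * (2 * M) + 2 ^ (n + 2) * W.length := by
  induction n with
  | zero =>
    intro W h
    have he : ext W 1 = s := by
      simpa [act] using h
    have hW : W ≠ [] := by
      rintro rfl
      exact hs he.symm
    refine ⟨2 * M + (sec W 1).length, sec W 1, ?_, ?_, ?_⟩
    · rw [pass M hM W hW, he]
    · omega
    · have := sec_length W 1
      omega
  | succ n ih =>
    intro W h
    have hW : W ≠ [] := by
      rintro rfl
      rw [act_nil] at h
      have h' := List.append_cancel_left h
      simp only [List.cons.injEq, and_true] at h'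
      exact hs h'.symm
    rw [List.replicate_succ, List.cons_append, List.cons_append, act] at h
    simp only [List.cons.injEq] at h
    obtain ⟨he, h⟩ := h
    obtain ⟨τ, W', h1, h2, h3⟩ := ih (sec W 1) h
    refine ⟨2 * M + (sec W 1).length + τ, W', ?_, ?_, ?_⟩
    · rw [run_add, pass M hM W hW, he, Option.bind_some]
      exact h1
    · have e : (n + 1 + 1) * (2 * M) = (n + 1) * (2 * M) + 2 * M := by ring
      omega
    · have e : (n + 1 + 1) * (2 * M) = (n + 1) * (2 * M) + 2 * M := by ring
      have hl := sec_length W 1
      have e2 : 2 ^ (n + 1 + 2) * W.length = 2 ^ (n + 2) * (2 * W.length) := by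
        rw [pow_succ 2 (n + 2 : ℕ) |> fun h => (by ring : 2 ^ (n + 1 + 2) = 2 ^ (n + 2) * 2)]
        ring
      have hp : 1 ≤ 2 ^ (n + 2) := Nat.one_le_two_pow
      obtain ⟨q, hq⟩ : ∃ q, 2 ^ (n + 2) = q + 1 := ⟨2 ^ (n + 2) - 1, by omega⟩
      rw [hq] at h3 e2
      rw [e, e2]
      have h4 : q * (sec W 1).length ≤ q * (2 * W.length) := Nat.mul_le_mul_left q hl
      have h5 : (q + 1) * (sec W 1).length = q * (sec W 1).length + (sec W 1).length := by ring
      have h6 : (q + 1) * (2 * W.length) = q * (2 * W.length) + 2 * W.length := by ring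
      omega

theorem read0 (M : ℕ) : ∀ (j : ℕ) (Z : List Bool), j < 2 * M →
    ∃ w, run j (bin (R M) ++ Z) = some (true :: w) := by
  induction M with
  | zero => intro j Z h; omega
  | succ M ih =>
    intro j Z h
    have e : bin (R (M + 1)) = true :: true :: false :: true :: false :: false :: bin (R M) := rfl
    rw [e]
    match j, h with
    | 0, _ => exact ⟨_, rfl⟩
    | 1, _ => exact ⟨_, rfl⟩
    | j + 2, h =>
      obtain ⟨w, hw⟩ := ih j (Z ++ [true, true, false, true] ++ [true, true, false, true]) (by omega)
      refine ⟨w, ?_⟩
      have e2 : j + 2 = 2 + j := by ring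
      rw [e2, run_add, ← hw]
      simp [run, step]

theorem read2 (M : ℕ) : ∀ (j : ℕ) (Z : List Bool), j < 2 * M →
    ∃ w, run j ((bin (R M) ++ Z).drop 2) = some (false :: w) := by
  induction M with
  | zero => intro j Z h; omega
  | succ M ih =>
    intro j Z h
    have e : bin (R (M + 1)) = true :: true :: false :: true :: false :: false :: bin (R M) := rfl
    rw [e]
    match j, h with
    | 0, _ => exact ⟨_, rfl⟩
    | 1, _ => exact ⟨_, rfl⟩
    | j + 2, h =>
      obtain ⟨w, hw⟩ := ih j (Z ++ [false, false] ++ [false, false]) (by omega)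
      refine ⟨w, ?_⟩
      have e2 : j + 2 = 2 + j := by ring
      rw [e2, run_add, ← hw]
      cases M with
      | zero => omega
      | succ M =>
        have e' : bin (R (M + 1)) = true :: true :: false :: true :: false :: false :: bin (R M) :=
          rfl
        rw [e']
        simp [run, step]

end Pool.Agent.Helper34.PT
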