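import Pool.Agent.Helper34.PT.Defs

/-!
# Post's tag system (MP_41f897_lc): passes and the action on the ternary tree

A word `W` over the blocks `a = 00` (`false`) and `b = 1101` (`true`), read in the state `s` (number of
letters which still have to be skipped).
-/

set_option autoImplicit false

namespace Pool.Agent.Helper34.PT

/-- the blocks written when one block is read in the state `s` -/
def out : Bool → Fin 3 → List Bool
  | false, 0 => [false]
  | false, 1 => [false]
  | false, 2 => []
  | true, 0 => [true, true]
  | true, 1 => [true]
  | true, 2 => [false]

/-- the next state -/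
def nxt : Bool → Fin 3 → Fin 3
  | false, s => s + 1
  | true, s => s + 2

/-- the word written when `W` is read -/
def sec : List Bool → Fin 3 → List Bool
  | [], _ => []
  | c :: W, s => out c s ++ sec W (nxt c s)

/-- the state after `W` is read -/
def ext : List Bool → Fin 3 → Fin 3
  | [], s => s
  | c :: W, s => ext W (nxt c s)

/-- the action on profiles -/
def act : List (Fin 3) → List Bool → List (Fin 3)
  | [], _ => []
  | s :: v, W => ext W s :: act v (sec W s)

/-- binary form of a word of blocks -/
def bin : List Bool → List Bool
  | [] => []
  | false :: W => false :: false :: bin W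
  | true :: W => true :: true :: false :: true :: bin W

theorem bin_append (U W : List Bool) : bin (U ++ W) = bin U ++ bin W := by
  induction U with
  | nil => rfl
  | cons c U ih => cases c <;> simp [bin, ih]

theorem ext_append (U W : List Bool) (s : Fin 3) : ext (U ++ W) s = ext W (ext U s) := by
  induction U generalizing s with
  | nil => rfl
  | cons c U ih => simp only [List.cons_append, ext, ih]

theorem sec_append (U W : List Bool) (s : Fin 3) :
    sec (U ++ W) s = sec U s ++ sec W (ext U s) := by
  induction U generalizing s with
  | nil => rfl
  | cons c U ih => simp only [List.cons_append, ext, sec, ih, List.append_assoc]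

theorem act_append (v : List (Fin 3)) : ∀ U W : List Bool, act v (U ++ W) = act (act v U) W := by
  induction v with
  | nil => intro U W; rfl
  | cons s v ih =>
    intro U W
    simp only [act, ext_append, sec_append, ih]

theorem act_nil (v : List (Fin 3)) : act v [] = v := by
  induction v with
  | nil => rfl
  | cons s v ih => simp only [act, ext, sec, ih]

theorem act_length (v : List (Fin 3)) : ∀ W : List Bool, (act v W).length = v.length := by
  induction v with
  | nil => intro W; rfl
  | cons s v ih => intro W; simp only [act, List.length_cons, ih]

/-- powers of a word -/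
def rep : ℕ → List Bool → List Bool
  | 0, _ => []
  | n + 1, W => W ++ rep n W

theorem rep_add (m n : ℕ) (W : List Bool) : rep (m + n) W = rep m W ++ rep n W := by
  induction m with
  | zero => simp [rep]
  | succ m ih =>
    have : m + 1 + n = (m + n) + 1 := by ring
    rw [this]
    simp only [rep, ih, List.append_assoc]

theorem rep_one (W : List Bool) : rep 1 W = W := by simp [rep]

theorem rep_mul (m n : ℕ) (W : List Bool) : rep (m * n) W = rep m (rep n W) := by
  induction m with
  | zero => simp [rep]
  | succ m ih =>
    have : (m + 1) * n = n + m * n := by ring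
    rw [this, rep_add, ih]
    rfl

theorem ext_rep {U : List Bool} {s : Fin 3} (h : ext U s = s) (n : ℕ) : ext (rep n U) s = s := by
  induction n with
  | zero => rfl
  | succ n ih => simp only [rep, ext_append, h, ih]

theorem sec_rep {U : List Bool} {s : Fin 3} (h : ext U s = s) (n : ℕ) :
    sec (rep n U) s = rep n (sec U s) := by
  induction n with
  | zero => rfl
  | succ n ih => simp only [rep, sec_append, h, ih]

theorem ext_shift (W : List Bool) (s : Fin 3) : ext W s = s + ext W 0 := by
  induction W generalizing s with
  | nil => simp [ext]
  | cons c W ih =>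
    simp only [ext]
    rw [ih (nxt c s), ih (nxt c 0)]
    cases c <;> simp only [nxt] <;> abel

theorem ext_rep_three (W : List Bool) (s : Fin 3) : ext (rep 3 W) s = s := by
  have h : rep 3 W = W ++ (W ++ (W ++ [])) := rfl
  rw [h, ext_append, ext_append, ext_append]
  simp only [ext]
  rw [ext_shift W (ext W (ext W s)), ext_shift W (ext W s), ext_shift W s]
  generalize ext W 0 = d
  revert s d
  decide

theorem act_rep_pow (k : ℕ) : ∀ (v : List (Fin 3)), v.length ≤ k → ∀ W : List Bool,
    act v (rep (3 ^ k) W) = v := by
  induction k with
  | zero =>
    intro v hv W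
    have : v = [] := List.length_eq_zero_iff.1 (by omega)
    subst this
    rfl
  | succ k ih =>
    intro v hv W
    cases v with
    | nil => rfl
    | cons s v =>
      have h : rep (3 ^ (k + 1)) W = rep (3 ^ k) (rep 3 W) := by
        rw [pow_succ, rep_mul]
      rw [h]
      simp only [act]
      rw [ext_rep (ext_rep_three W s), sec_rep (ext_rep_three W s), ih v (by simpa using hv)]

/-- the permutation of the profiles given by a word -/
def P (W : List Bool) : Equiv.Perm (List (Fin 3)) where
  toFun v := act v W
  invFun v := act v (rep (3 ^ v.length - 1) W)
  left_inv v := by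
    show act (act v W) (rep (3 ^ (act v W).length - 1) W) = v
    rw [act_length, ← act_append]
    have h : W ++ rep (3 ^ v.length - 1) W = rep (3 ^ v.length) W := by
      have h1 : 3 ^ v.length = (3 ^ v.length - 1) + 1 := by
        have : 0 < 3 ^ v.length := by positivity
        omega
      conv_rhs => rw [h1]
      rfl
    rw [h, act_rep_pow _ v le_rfl]
  right_inv v := by
    show act (act v (rep (3 ^ v.length - 1) W)) W = v
    rw [← act_append]
    have h : rep (3 ^ v.length - 1) W ++ W = rep (3 ^ v.length) W := by
      have h1 : 3 ^ v.length = (3 ^ v.length - 1) + 1 := by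
        have : 0 < 3 ^ v.length := by positivity
        omega
      conv_rhs => rw [h1]
      rw [rep_add, rep_one]
    rw [h, act_rep_pow _ v le_rfl]

theorem P_apply (W : List Bool) (v : List (Fin 3)) : P W v = act v W := rfl

theorem P_append (U W : List Bool) : P (U ++ W) = P W * P U := by
  ext1 v
  rw [Equiv.Perm.mul_apply, P_apply, P_apply, P_apply, act_append]

theorem P_nil : P [] = 1 := by
  ext1 v
  rw [P_apply, act_nil]
  rfl

theorem P_rep (n : ℕ) (W : List Bool) : P (rep n W) = P W ^ n := by
  induction n with
  | zero => rw [pow_zero]; exact P_nil
  | succ n ih =>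
    rw [rep_add, P_append, ih, rep_one, pow_succ']

theorem P_pow_fix (k : ℕ) (v : List (Fin 3)) (hv : v.length ≤ k) (W : List Bool) :
    (P W ^ (3 ^ k)) v = v := by
  rw [← P_rep, P_apply, act_rep_pow k v hv]

theorem P_length (W : List Bool) (v : List (Fin 3)) : (P W v).length = v.length := act_length v W

/-! ## The raw process -/

theorem run_add (m n : ℕ) (w : List Bool) : run (m + n) w = (run m w).bind (run n) := by
  induction m generalizing w with
  | zero => simp [run]
  | succ m ih =>
    have h : m + 1 + n = (m + n) + 1 := by ring
    rw [h]
    simp only [run]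
    cases step w with
    | none => rfl
    | some w' => simp only [Option.bind_some, ih]

theorem run_block (c : Bool) (s : Fin 3) (Z : List Bool) (hZ : 2 ≤ Z.length) :
    run (out c s).length ((bin [c] ++ Z).drop s) = some ((Z ++ bin (out c s)).drop (nxt c s)) := by
  obtain ⟨z1, Z1, rfl⟩ : ∃ z1 Z1, Z = z1 :: Z1 := by
    cases Z with
    | nil => simp at hZ
    | cons z Z => exact ⟨z, Z, rfl⟩
  obtain ⟨z2, Z2, rfl⟩ : ∃ z2 Z2, Z1 = z2 :: Z2 := by
    cases Z1 with
    | nil => simp at hZ
    | cons z Z => exact ⟨z, Z, rfl⟩
  cases c <;> fin_cases s <;> simp [out, nxt, bin, run, step]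

theorem run_word (W : List Bool) : ∀ (s : Fin 3) (Z : List Bool), 2 ≤ Z.length →
    run (sec W s).length ((bin W ++ Z).drop s) = some ((Z ++ bin (sec W s)).drop (ext W s)) := by
  induction W with
  | nil =>
    intro s Z hZ
    simp [sec, ext, bin, run]
  | cons c W ih =>
    intro s Z hZ
    simp only [sec, ext, List.length_append]
    have hb : bin (c :: W) ++ Z = bin [c] ++ (bin W ++ Z) := by
      have : c :: W = [c] ++ W := rfl
      rw [this, bin_append, List.append_assoc]
    rw [hb, run_add, run_block c s (bin W ++ Z) (by simp; omega), Option.bind_some,
      List.append_assoc, ih (nxt c s) (Z ++ bin (out c s)) (by simp; omega), bin_append,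
      List.append_assoc]

end Pool.Agent.Helper34.PT
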