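import Pool.Agent.Helper34.PT.Tree

/-!
# Post's tag system (MP_41f897_lc): programs for Boolean formulas
-/

set_option autoImplicit false
set_option linter.unusedSimpArgs false

namespace Pool.Agent.Helper34.PT

open Equiv.Perm

/-- letters of programs: group letters, and the element `X0` or its inverse under the condition `x i` -/
inductive Item : Type
  | l (c : Ltr) : Item
  | X (i : ℕ) (e : Bool) : Item

/-- the letters of `X0 = b⁻¹ a b a⁻¹` -/
def xL : List Ltr := [.Bi, .A 1, .B, .A (-1)]

/-- the element `X0` -/
def X0 : Equiv.Perm (List (Fin 3)) := evl xL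

/-- the inverse letter -/
def Ltr.inv : Ltr → Ltr
  | .A n => .A (-n)
  | .B => .Bi
  | .Bi => .B

theorem Ltr.ev_inv (c : Ltr) : c.inv.ev = c.ev⁻¹ := by
  cases c with
  | A n => simp [Ltr.inv, Ltr.ev, zpow_neg]
  | B => rfl
  | Bi => simp [Ltr.inv, Ltr.ev]

/-- the inverse item -/
def Item.inv : Item → Item
  | .l c => .l c.inv
  | .X i e => .X i (!e)

/-- the value of an item -/
def Item.ev (x : ℕ → Bool) : Item → Equiv.Perm (List (Fin 3))
  | .l c => c.ev
  | .X i true => if x i then X0 else 1
  | .X i false => if x i then X0⁻¹ else 1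

/-- the value of a program -/
def ev (x : ℕ → Bool) : List Item → Equiv.Perm (List (Fin 3))
  | [] => 1
  | i :: L => ev x L * i.ev x

/-- the inverse program -/
def inv : List Item → List Item
  | [] => []
  | i :: L => inv L ++ [i.inv]

theorem Item.ev_inv (x : ℕ → Bool) (i : Item) : i.inv.ev x = (i.ev x)⁻¹ := by
  cases i with
  | l c => exact c.ev_inv
  | X i e =>
    cases e <;> simp only [Item.inv, Item.ev, Bool.not_true, Bool.not_false] <;> split_ifs <;> simp

theorem ev_append (x : ℕ → Bool) (L L' : List Item) : ev x (L ++ L') = ev x L' * ev x L := by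
  induction L with
  | nil => simp [ev]
  | cons c L ih => simp only [List.cons_append, ev, ih, mul_assoc]

theorem ev_inv (x : ℕ → Bool) (L : List Item) : ev x (inv L) = (ev x L)⁻¹ := by
  induction L with
  | nil => simp [ev, inv]
  | cons c L ih =>
    simp only [inv, ev_append, ev, ih, one_mul, Item.ev_inv, mul_inv_rev]

theorem inv_length (L : List Item) : (inv L).length = L.length := by
  induction L with
  | nil => rfl
  | cons c L ih => simp [inv, ih]

theorem ev_map (x : ℕ → Bool) (L : List Ltr) : ev x (L.map Item.l) = evl L := by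
  induction L with
  | nil => rfl
  | cons c L ih => simp only [List.map_cons, ev, ih, evl, Item.ev]

/-- the commutator program -/
def comm (H P Q : List Item) : List Item :=
  inv P ++ (inv H ++ (inv Q ++ (H ++ (P ++ (inv H ++ (Q ++ H))))))

theorem ev_comm (x : ℕ → Bool) (H P Q : List Item) : ev x (comm H P Q) =
    ev x H * ev x Q * (ev x H)⁻¹ * ev x P * ev x H * (ev x Q)⁻¹ * (ev x H)⁻¹ * (ev x P)⁻¹ := by
  simp only [comm, ev_append, ev_inv, mul_assoc]

theorem comm_length (H P Q : List Item) :
    (comm H P Q).length = 2 * P.length + 2 * Q.length + 4 * H.length := by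
  simp only [comm, List.length_append, inv_length]
  ring

/-- the letters of the conjugating element of stage `d` -/
def hd (k d : ℕ) : List Ltr := (lift k)^[3 * d + 1] hL

/-- the same as a program -/
def Hd (k d : ℕ) : List Item := (hd k d).map Item.l

/-- the elements `X_d` -/
def XX (k : ℕ) : ℕ → Equiv.Perm (List (Fin 3))
  | 0 => X0
  | d + 1 => evl (hd k d) * XX k d * (evl (hd k d))⁻¹ * XX k d * evl (hd k d) * (XX k d)⁻¹ *
      (evl (hd k d))⁻¹ * (XX k d)⁻¹

/-- the programs -/
def Pr (k : ℕ) : ℕ → Formula → List Item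
  | 0, .var i => [Item.X i true]
  | 0, .tt => xL.map Item.l
  | 0, _ => []
  | d + 1, .var i => comm (Hd k d) (Pr k d (.var i)) (Pr k d (.var i))
  | d + 1, .tt => comm (Hd k d) (Pr k d .tt) (Pr k d .tt)
  | d + 1, .neg φ => comm (Hd k d) (Pr k d .tt) (Pr k d .tt) ++
      inv (comm (Hd k d) (Pr k d φ) (Pr k d φ))
  | d + 1, .conj φ ψ => comm (Hd k d) (Pr k d φ) (Pr k d ψ)
  | d + 1, .disj φ ψ => comm (Hd k d) (Pr k d .tt) (Pr k d .tt) ++
      inv (comm (Hd k d) (Pr k d .tt ++ inv (Pr k d φ)) (Pr k d .tt ++ inv (Pr k d ψ)))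

theorem ev_Hd (k d : ℕ) (x : ℕ → Bool) : ev x (Hd k d) = evl (hd k d) := ev_map x _

/-- the value of a commutator of two conditional elements -/
theorem ev_comm_if (k d : ℕ) (x : ℕ → Bool) (P Q : List Item) (p q : Bool)
    (hp : ev x P = if p then XX k d else 1) (hq : ev x Q = if q then XX k d else 1) :
    ev x (comm (Hd k d) P Q) = if (p && q) then XX k (d + 1) else 1 := by
  rw [ev_comm, hp, hq, ev_Hd]
  cases p <;> cases q <;> simp [XX, mul_assoc]

theorem Pr_spec (k : ℕ) (x : ℕ → Bool) : ∀ (d : ℕ) (φ : Formula), φ.depth ≤ d →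
    ev x (Pr k d φ) = if φ.eval x then XX k d else 1 := by
  intro d
  induction d with
  | zero =>
    intro φ hφ
    cases φ with
    | var i => simp [Pr, ev, Item.ev, Formula.eval, XX]
    | tt => simp only [Pr, ev_map, Formula.eval, XX, X0, if_true]
    | neg φ => simp [Formula.depth] at hφ
    | conj φ ψ => simp [Formula.depth] at hφ
    | disj φ ψ => simp [Formula.depth] at hφ
  | succ d ih =>
    intro φ hφ
    have htt : ev x (Pr k d .tt) = if true then XX k d else 1 := by
      rw [ih .tt (by simp [Formula.depth])]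
      rfl
    cases φ with
    | var i =>
      have h := ih (.var i) (by simp [Formula.depth])
      simp only [Pr]
      rw [ev_comm_if k d x _ _ _ _ h h, Bool.and_self]
    | tt =>
      simp only [Pr]
      rw [ev_comm_if k d x _ _ _ _ htt htt]
      rfl
    | neg φ =>
      have h := ih φ (by simp [Formula.depth] at hφ; omega)
      simp only [Pr]
      rw [ev_append, ev_inv, ev_comm_if k d x _ _ _ _ htt htt, ev_comm_if k d x _ _ _ _ h h]
      simp only [Formula.eval]
      rcases Bool.eq_false_or_eq_true (φ.eval x) with e | e <;> simp [e]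
    | conj φ ψ =>
      have h := ih φ (by simp [Formula.depth] at hφ; omega)
      have h' := ih ψ (by simp [Formula.depth] at hφ; omega)
      simp only [Pr]
      rw [ev_comm_if k d x _ _ _ _ h h']
      rfl
    | disj φ ψ =>
      have h := ih φ (by simp [Formula.depth] at hφ; omega)
      have h' := ih ψ (by simp [Formula.depth] at hφ; omega)
      have g : ev x (Pr k d .tt ++ inv (Pr k d φ)) = if (!(φ.eval x)) then XX k d else 1 := by
        rw [ev_append, ev_inv, htt, h]
        cases φ.eval x <;> simp
      have g' : ev x (Pr k d .tt ++ inv (Pr k d ψ)) = if (!(ψ.eval x)) then XX k d else 1 := by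
        rw [ev_append, ev_inv, htt, h']
        cases ψ.eval x <;> simp
      simp only [Pr]
      rw [ev_append, ev_inv, ev_comm_if k d x _ _ _ _ htt htt, ev_comm_if k d x _ _ _ _ g g']
      simp only [Formula.eval]
      rcases Bool.eq_false_or_eq_true (φ.eval x) with e | e <;>
      rcases Bool.eq_false_or_eq_true (ψ.eval x) with e' | e' <;> simp [e, e']

theorem X0_lp : Lp X0 := evl_lp _

theorem XX_lp (k d : ℕ) : Lp (XX k d) := by
  induction d with
  | zero => exact X0_lp
  | succ d ih =>
    have hl : Lp (evl (hd k d)) := evl_lp _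
    exact ((((((hl.mul ih).mul hl.inv).mul ih).mul hl).mul ih.inv).mul hl.inv).mul ih.inv

theorem XX_Mv (k d : ℕ) : Mv k (3 * d + 1) (XX k d) := by
  induction d with
  | zero =>
    intro s w _
    constructor
    · fin_cases s <;>
      simp [XX, X0, xL, evl, Ltr.ev, zpow_one, zpow_neg_one, mul_apply, one_apply, a0, a1, a2,
        b0, b1, b2, ai0, ai1, ai2, bi0, bi1, bi2, ais, ias, List.replicate]
    · fin_cases s <;>
      simp [XX, X0, xL, evl, Ltr.ev, zpow_one, zpow_neg_one, mul_apply, one_apply, a0, a1, a2,
        b0, b1, b2, ai0, ai1, ai2, bi0, bi1, bi2, ais, ias, List.replicate, mul_inv_rev, inv_inv]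
  | succ d ih =>
    have e : 3 * (d + 1) + 1 = (3 * d + 1) + 3 := by ring
    rw [e]
    exact comm_Mv k (3 * d + 1) (XX k d) (evl (hd k d)) ih (XX_lp k d)
      (fun w hw => lift_iter k hL (3 * d + 1) w hw)

/-! ## Lengths -/

theorem lift_length (k : ℕ) (L : List Ltr) : (lift k L).length ≤ 3 * L.length := by
  induction L with
  | nil => simp [lift]
  | cons c L ih =>
    simp only [lift, List.length_append, List.length_cons]
    cases c <;> simp [lift1] <;> omega

theorem lift_iter_length (k : ℕ) (L : List Ltr) (l : ℕ) :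
    ((lift k)^[l] L).length ≤ 3 ^ l * L.length := by
  induction l with
  | zero => simp
  | succ l ih =>
    rw [Function.iterate_succ_apply']
    calc (lift k ((lift k)^[l] L)).length ≤ 3 * ((lift k)^[l] L).length := lift_length k _
      _ ≤ 3 * (3 ^ l * L.length) := by omega
      _ = 3 ^ (l + 1) * L.length := by ring

theorem Hd_length (k d : ℕ) : (Hd k d).length ≤ 36 * 27 ^ d := by
  have h := lift_iter_length k hL (3 * d + 1)
  have e : (Hd k d).length = ((lift k)^[3 * d + 1] hL).length := by
    simp only [Hd, hd, List.length_map]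
  rw [e]
  refine h.trans (le_of_eq ?_)
  have e1 : hL.length = 12 := rfl
  rw [e1, pow_succ, pow_mul]
  norm_num
  ring

theorem Pr_tt_length (k d : ℕ) : (Pr k d .tt).length ≤ 36 * 27 ^ d := by
  induction d with
  | zero => simp [Pr, xL]
  | succ d ih =>
    simp only [Pr, comm_length]
    have h := Hd_length k d
    rw [pow_succ]
    omega

theorem Pr_length (k : ℕ) : ∀ (d : ℕ) (φ : Formula), (Pr k d φ).length ≤ 108 * 27 ^ d := by
  intro d
  induction d with
  | zero => intro φ; cases φ <;> simp [Pr, xL]
  | succ d ih =>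
    intro φ
    have h := Hd_length k d
    have ht := Pr_tt_length k d
    have e : 27 ^ (d + 1) = 27 * 27 ^ d := by rw [pow_succ]; ring
    rw [e]
    cases φ with
    | var i =>
      simp only [Pr, comm_length]
      have h1 := ih (.var i)
      omega
    | tt =>
      simp only [Pr, comm_length]
      omega
    | neg φ =>
      simp only [Pr, comm_length, List.length_append, inv_length]
      have h1 := ih φ
      omega
    | conj φ ψ =>
      simp only [Pr, comm_length]
      have h1 := ih φ
      have h2 := ih ψ
      omega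
    | disj φ ψ =>
      simp only [Pr, comm_length, List.length_append, inv_length]
      have h1 := ih φ
      have h2 := ih ψ
      omega

end Pool.Agent.Helper34.PT
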