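import Pool.Agent.Helper34.PT.Pass

/-!
# Post's tag system (MP_41f897_lc): group letters, lifting, the commutator step
-/

set_option autoImplicit false
set_option linter.unusedSimpArgs false

namespace Pool.Agent.Helper34.PT

open Equiv.Perm

theorem ais (g : Equiv.Perm (List (Fin 3))) (w : List (Fin 3)) : g (g⁻¹ w) = w :=
  Equiv.apply_symm_apply g w

theorem ias (g : Equiv.Perm (List (Fin 3))) (w : List (Fin 3)) : g⁻¹ (g w) = w :=
  Equiv.symm_apply_apply g w

/-- the action of the block `00` -/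
def a : Equiv.Perm (List (Fin 3)) := P [false]

/-- the action of the block `1101` -/
def b : Equiv.Perm (List (Fin 3)) := P [true]

theorem a0 (w : List (Fin 3)) : a (0 :: w) = 1 :: a w := rfl

theorem a1 (w : List (Fin 3)) : a (1 :: w) = 2 :: a w := rfl

theorem a2 (w : List (Fin 3)) : a (2 :: w) = 0 :: w := by
  show (0 : Fin 3) :: act w [] = 0 :: w
  rw [act_nil]

theorem b0 (w : List (Fin 3)) : b (0 :: w) = 2 :: b (b w) := by
  show (2 : Fin 3) :: act w ([true] ++ [true]) = 2 :: act (act w [true]) [true]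
  rw [act_append]

theorem b1 (w : List (Fin 3)) : b (1 :: w) = 0 :: b w := rfl

theorem b2 (w : List (Fin 3)) : b (2 :: w) = 1 :: a w := rfl

theorem ai1 (w : List (Fin 3)) : a⁻¹ (1 :: w) = 0 :: a⁻¹ w := by
  rw [inv_eq_iff_eq, a0, ais]

theorem ai2 (w : List (Fin 3)) : a⁻¹ (2 :: w) = 1 :: a⁻¹ w := by
  rw [inv_eq_iff_eq, a1, ais]

theorem ai0 (w : List (Fin 3)) : a⁻¹ (0 :: w) = 2 :: w := by
  rw [inv_eq_iff_eq, a2]

theorem bi2 (w : List (Fin 3)) : b⁻¹ (2 :: w) = 0 :: b⁻¹ (b⁻¹ w) := by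
  rw [inv_eq_iff_eq, b0, ais, ais]

theorem bi0 (w : List (Fin 3)) : b⁻¹ (0 :: w) = 1 :: b⁻¹ w := by
  rw [inv_eq_iff_eq, b1, ais]

theorem bi1 (w : List (Fin 3)) : b⁻¹ (1 :: w) = 2 :: a⁻¹ w := by
  rw [inv_eq_iff_eq, b2, ais]

/-- length preserving -/
def Lp (g : Equiv.Perm (List (Fin 3))) : Prop := ∀ w, (g w).length = w.length

theorem Lp.mul {g h : Equiv.Perm (List (Fin 3))} (hg : Lp g) (hh : Lp h) : Lp (g * h) := by
  intro w
  rw [mul_apply, hg, hh]

theorem Lp.inv {g : Equiv.Perm (List (Fin 3))} (hg : Lp g) : Lp g⁻¹ := by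
  intro w
  have h := hg (g⁻¹ w)
  rw [ais] at h
  exact h.symm

theorem Lp.one : Lp 1 := fun _ => rfl

theorem Lp.pow {g : Equiv.Perm (List (Fin 3))} (hg : Lp g) (n : ℕ) : Lp (g ^ n) := by
  induction n with
  | zero => rw [pow_zero]; exact Lp.one
  | succ n ih => rw [pow_succ]; exact ih.mul hg

theorem Lp.zpow {g : Equiv.Perm (List (Fin 3))} (hg : Lp g) (n : ℤ) : Lp (g ^ n) := by
  cases n with
  | ofNat n => rw [Int.ofNat_eq_natCast, zpow_natCast]; exact hg.pow n
  | negSucc n => rw [zpow_negSucc]; exact (hg.pow (n + 1)).inv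

theorem Lp_a : Lp a := P_length _

theorem Lp_b : Lp b := P_length _

/-- group letters -/
inductive Ltr : Type
  | A (n : ℤ) : Ltr
  | B : Ltr
  | Bi : Ltr

/-- their action -/
def Ltr.ev : Ltr → Equiv.Perm (List (Fin 3))
  | .A n => a ^ n
  | .B => b
  | .Bi => b⁻¹

/-- the action of a word of group letters (the first letter acts first) -/
def evl : List Ltr → Equiv.Perm (List (Fin 3))
  | [] => 1
  | c :: L => evl L * c.ev

theorem evl_append (L L' : List Ltr) : evl (L ++ L') = evl L' * evl L := by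
  induction L with
  | nil => simp [evl]
  | cons c L ih => simp only [List.cons_append, evl, ih, mul_assoc]

theorem Ltr.lp (c : Ltr) : Lp c.ev := by
  cases c with
  | A n => exact Lp_a.zpow n
  | B => exact Lp_b
  | Bi => exact Lp_b.inv

theorem evl_lp (L : List Ltr) : Lp (evl L) := by
  induction L with
  | nil => exact Lp.one
  | cons c L ih => exact ih.mul c.lp

/-! ## Lifting -/

theorem zpow_sec {g h : Equiv.Perm (List (Fin 3))} (H : ∀ w, g (1 :: w) = 1 :: h w) (m : ℤ)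
    (w : List (Fin 3)) : (g ^ m) (1 :: w) = 1 :: (h ^ m) w := by
  have hn : ∀ (n : ℕ) (w : List (Fin 3)), (g ^ n) (1 :: w) = 1 :: (h ^ n) w := by
    intro n
    induction n with
    | zero => intro w; rfl
    | succ n ih =>
      intro w
      rw [pow_succ, pow_succ, mul_apply, mul_apply, H, ih]
  cases m with
  | ofNat n => rw [Int.ofNat_eq_natCast, zpow_natCast, zpow_natCast]; exact hn n w
  | negSucc n =>
    rw [zpow_negSucc, zpow_negSucc, inv_eq_iff_eq, hn, ais]

theorem a_cube (w : List (Fin 3)) : (a ^ 3) (1 :: w) = 1 :: (a ^ 2) w := by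
  have h3 : a ^ 3 = a * (a * a) := by rw [pow_succ, pow_two, mul_assoc]
  rw [h3, pow_two]
  simp only [mul_apply, a0, a1, a2]

theorem a_lift (m : ℤ) (w : List (Fin 3)) : (a ^ (3 * m)) (1 :: w) = 1 :: (a ^ (2 * m)) w := by
  rw [zpow_mul, zpow_mul]
  exact zpow_sec (g := a ^ (3 : ℤ)) (h := a ^ (2 : ℤ)) (fun w => a_cube w) m w

theorem a_fix (k : ℕ) (m : ℤ) (w : List (Fin 3)) (hw : w.length ≤ k) :
    (a ^ (3 ^ k * m : ℤ)) w = w := by
  rw [zpow_mul]
  apply zpow_apply_eq_self_of_apply_eq_self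
  have h := P_pow_fix k w hw [false]
  have e : ((3 : ℤ) ^ k) = ((3 ^ k : ℕ) : ℤ) := by push_cast; rfl
  rw [e, zpow_natCast]
  exact h

theorem b_fix (k : ℕ) (w : List (Fin 3)) (hw : w.length ≤ k) : (b ^ (3 ^ k)) w = w :=
  P_pow_fix k w hw [true]

/-- half of `3^k + 1` -/
def half (k : ℕ) : ℤ := (3 ^ k + 1) / 2

theorem two_half (k : ℕ) : 2 * half k = 3 ^ k + 1 := by
  have h : (2 : ℤ) ∣ 3 ^ k + 1 := by
    have h1 : Odd ((3 : ℤ) ^ k) := Odd.pow (by decide)
    obtain ⟨c, hc⟩ := h1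
    exact ⟨c + 1, by rw [hc]; ring⟩
  exact Int.mul_ediv_cancel' h

/-- the lift of a letter along the first child -/
def lift1 (k : ℕ) : Ltr → List Ltr
  | .A n => [.A (3 * (n * half k))]
  | .B => [.B, .A (-2), .A (3 * half k)]
  | .Bi => [.A (3 * (-half k)), .A 2, .Bi]

/-- the lift of a word -/
def lift (k : ℕ) : List Ltr → List Ltr
  | [] => []
  | c :: L => lift1 k c ++ lift k L

theorem lift1_B (k : ℕ) (w : List (Fin 3)) (hw : w.length ≤ k) :
    evl (lift1 k .B) (1 :: w) = 1 :: b w := by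
  simp only [lift1, evl, Ltr.ev, mul_apply, one_apply]
  rw [b1]
  have h2 : (a ^ (-2 : ℤ)) (0 :: b w) = 1 :: a⁻¹ (b w) := by
    have e : a ^ (-2 : ℤ) = a⁻¹ * a⁻¹ := by
      rw [zpow_neg, ← mul_inv_rev]
      congr 1
    rw [e, mul_apply, ai0, ai2]
  rw [h2, a_lift, two_half]
  congr 1
  have e3 : (a ^ ((3 : ℤ) ^ k + 1)) (a⁻¹ (b w)) = (a ^ ((3 : ℤ) ^ k * 1)) (b w) := by
    rw [zpow_add, zpow_one, mul_apply, ais, mul_one]
  rw [e3, a_fix k 1 (b w) (by rw [Lp_b]; exact hw)]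

theorem lift1_spec (k : ℕ) (c : Ltr) (w : List (Fin 3)) (hw : w.length ≤ k) :
    evl (lift1 k c) (1 :: w) = 1 :: c.ev w := by
  cases c with
  | A n =>
    simp only [lift1, evl, Ltr.ev, mul_apply, one_apply]
    rw [a_lift]
    have e : 2 * (n * half k) = 3 ^ k * n + n := by
      have := two_half k
      calc 2 * (n * half k) = n * (2 * half k) := by ring
        _ = 3 ^ k * n + n := by rw [this]; ring
    rw [e, zpow_add, mul_apply, a_fix k n _ (by rw [Lp_a.zpow n]; exact hw)]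
  | B => exact lift1_B k w hw
  | Bi =>
    have h := lift1_B k (b⁻¹ w) (by rw [Lp_b.inv]; exact hw)
    rw [ais] at h
    have e : evl (lift1 k .Bi) = (evl (lift1 k .B))⁻¹ := by
      simp only [lift1, evl, Ltr.ev, one_mul, mul_inv_rev, mul_neg, zpow_neg]
      rw [mul_assoc, inv_inv]
    rw [e, inv_eq_iff_eq]
    exact h.symm

theorem lift_spec (k : ℕ) (L : List Ltr) : ∀ w : List (Fin 3), w.length ≤ k →
    evl (lift k L) (1 :: w) = 1 :: evl L w := by
  induction L with
  | nil => intro w _; rfl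
  | cons c L ih =>
    intro w hw
    simp only [lift, evl_append, mul_apply, evl]
    rw [lift1_spec k c w hw, ih _ (by rw [c.lp]; exact hw)]

theorem lift_iter (k : ℕ) (L : List Ltr) (l : ℕ) : ∀ w : List (Fin 3), l + w.length ≤ k →
    evl ((lift k)^[l] L) (List.replicate l 1 ++ w) = List.replicate l 1 ++ evl L w := by
  induction l with
  | zero => intro w _; rfl
  | succ l ih =>
    intro w hw
    rw [Function.iterate_succ_apply', List.replicate_succ, List.cons_append, List.cons_append,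
      lift_spec k _ _ (by simp; omega), ih w (by omega)]

/-! ## The commutator step -/

/-- the element `h = (1, G, 1)` -/
def hL : List Ltr := [.A 1, .A 1, .Bi, .A 1, .Bi, .A 1, .B, .A (-1), .A (-1), .A (-1), .B, .A (-1)]

/-- the element `G` -/
def gL : List Ltr := [.A 1, .Bi, .A 1, .Bi, .Bi, .A 1, .B, .A (-1), .A (-1), .B, .B, .A (-1)]

theorem h_zero (w : List (Fin 3)) : evl hL (0 :: w) = 0 :: w := by
  simp only [hL, evl, Ltr.ev, zpow_one, zpow_neg_one, mul_apply, one_apply, a0, a1, a2, b0, b1, b2,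
    ai0, ai1, ai2, bi0, bi1, bi2, ais, ias]

theorem h_two (w : List (Fin 3)) : evl hL (2 :: w) = 2 :: w := by
  simp only [hL, evl, Ltr.ev, zpow_one, zpow_neg_one, mul_apply, one_apply, a0, a1, a2, b0, b1, b2,
    ai0, ai1, ai2, bi0, bi1, bi2, ais, ias]

theorem h_one (w : List (Fin 3)) : evl hL (1 :: w) = 1 :: evl gL w := by
  simp only [hL, gL, evl, Ltr.ev, zpow_one, zpow_neg_one, mul_apply, one_apply, a0, a1, a2, b0, b1,
    b2, ai0, ai1, ai2, bi0, bi1, bi2, ais, ias]

theorem G_path (s : Fin 3) (w : List (Fin 3)) :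
    ∃ w', evl gL (1 :: 1 :: s :: w) = 1 :: 1 :: (s + 2) :: w' := by
  fin_cases s <;>
  simp [gL, evl, Ltr.ev, zpow_one, zpow_neg_one, mul_apply, one_apply, a0, a1, a2, b0, b1,
    b2, ai0, ai1, ai2, bi0, bi1, bi2, ais, ias]

theorem G_path_inv (s : Fin 3) (w : List (Fin 3)) :
    ∃ w', (evl gL)⁻¹ (1 :: 1 :: s :: w) = 1 :: 1 :: (s + 1) :: w' := by
  fin_cases s <;>
  simp [gL, evl, Ltr.ev, zpow_one, zpow_neg_one, mul_apply, one_apply, a0, a1, a2, b0, b1,
    b2, ai0, ai1, ai2, bi0, bi1, bi2, ais, ias, mul_inv_rev, inv_inv]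

/-- `X` fixes the vertex `1^l` and moves its children -/
def Mv (k l : ℕ) (X : Equiv.Perm (List (Fin 3))) : Prop :=
  ∀ (s : Fin 3) (w : List (Fin 3)), l + 1 + w.length ≤ k →
    (∃ w', X (List.replicate l 1 ++ s :: w) = List.replicate l 1 ++ (s + 2) :: w') ∧
    (∃ w', X⁻¹ (List.replicate l 1 ++ s :: w) = List.replicate l 1 ++ (s + 1) :: w')

theorem comm_step (k l : ℕ) (X H : Equiv.Perm (List (Fin 3))) (hX : Mv k l X) (lX : Lp X)
    (hH : ∀ w : List (Fin 3), l + w.length ≤ k →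
      H (List.replicate l 1 ++ w) = List.replicate l 1 ++ evl hL w)
    (w : List (Fin 3)) (hw : l + 1 + w.length ≤ k) :
    (H * X * H⁻¹ * X * H * X⁻¹ * H⁻¹ * X⁻¹) (List.replicate l 1 ++ 1 :: w) =
      List.replicate l 1 ++ 1 :: evl gL w := by
  obtain ⟨w1, h1⟩ := (hX 1 w hw).2
  have e1 : (1 : Fin 3) + 1 = 2 := by decide
  rw [e1] at h1
  have l1 : w1.length = w.length := by
    have h := lX.inv (List.replicate l 1 ++ 1 :: w)
    rw [h1] at h
    simpa using h
  obtain ⟨w2, h2⟩ := (hX 2 w1 (by omega)).2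
  have e2 : (2 : Fin 3) + 1 = 0 := by decide
  rw [e2] at h2
  have l2 : w2.length = w1.length := by
    have h := lX.inv (List.replicate l 1 ++ 2 :: w1)
    rw [h2] at h
    simpa using h
  have f1 : H⁻¹ (List.replicate l 1 ++ 2 :: w1) = List.replicate l 1 ++ 2 :: w1 := by
    rw [inv_eq_iff_eq, hH _ (by simp; omega), h_two]
  have f2 : H (List.replicate l 1 ++ 0 :: w2) = List.replicate l 1 ++ 0 :: w2 := by
    rw [hH _ (by simp; omega), h_zero]
  simp only [mul_apply]
  rw [h1, f1, h2, f2]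
  have g1 : X (List.replicate l 1 ++ 0 :: w2) = List.replicate l 1 ++ 2 :: w1 := by
    rw [← h2, ais]
  have g2 : X (List.replicate l 1 ++ 2 :: w1) = List.replicate l 1 ++ 1 :: w := by
    rw [← h1, ais]
  rw [g1, f1, g2, hH _ (by simp; omega), h_one]

theorem comm_Mv (k l : ℕ) (X H : Equiv.Perm (List (Fin 3))) (hX : Mv k l X) (lX : Lp X)
    (hH : ∀ w : List (Fin 3), l + w.length ≤ k →
      H (List.replicate l 1 ++ w) = List.replicate l 1 ++ evl hL w) :
    Mv k (l + 3) (H * X * H⁻¹ * X * H * X⁻¹ * H⁻¹ * X⁻¹) := by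
  intro s w hw
  have e : ∀ (t : Fin 3) (u : List (Fin 3)), List.replicate (l + 3) 1 ++ t :: u =
      List.replicate l 1 ++ 1 :: (1 :: 1 :: t :: u) := by
    intro t u
    rw [List.replicate_add]
    simp [List.replicate]
  constructor
  · obtain ⟨w', h'⟩ := G_path s w
    refine ⟨w', ?_⟩
    rw [e, e, comm_step k l X H hX lX hH _ (by simp; omega), h']
  · obtain ⟨w', h'⟩ := G_path_inv s w
    refine ⟨w', ?_⟩
    have hl : (1 :: 1 :: (s + 1) :: w').length = (1 :: 1 :: s :: w).length := by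
      rw [← h']
      exact (evl_lp gL).inv _
    rw [inv_eq_iff_eq, e, e, comm_step k l X H hX lX hH _ (by simp at hl ⊢; omega), ← h',
      ais]

end Pool.Agent.Helper34.PT
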